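import Pool.Agent.Y197.LR.Stm

/-!
The upper bound: a crossing of the strip crosses two disjoint parts of the strip.
-/

set_option autoImplicit false

namespace Pool.Agent.Y658.LR

open H974 Finset Pool.Agent.Y197.LR

theorem okh : Ok hf := fun e => by
  show (0 : ℝ) ≤ 1 / 2 ∧ (1 : ℝ) / 2 ≤ 1
  norm_num

theorem mem_SE {n c c' : ℤ} {e : Edg} : e ∈ SE n c c' ↔ c ≤ e.1 ∧ e.1 < c' ∧ InS n e := by
  obtain ⟨x, y, b⟩ := e
  unfold SE RE InS
  simp only [Finset.mem_filter, Finset.mem_product, Finset.mem_Icc, Finset.mem_univ, and_true]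
  cases b
  · simp only [Bool.false_eq_true, if_false, tgt_false]
    constructor
    · rintro ⟨⟨⟨⟨h1, h2⟩, h3, h4⟩, h5⟩, h6⟩
      exact ⟨h1, h6, h3, by omega⟩
    · rintro ⟨h1, h6, h3, h5⟩
      exact ⟨⟨⟨⟨h1, h6.le⟩, h3, by omega⟩, by omega⟩, h6⟩
  · simp only [if_true, tgt_true]
    constructor
    · rintro ⟨⟨⟨⟨h1, h2⟩, h3, h4⟩, h5⟩, h6⟩
      exact ⟨h1, h6, h3, h4⟩
    · rintro ⟨h1, h6, h3, h5⟩
      exact ⟨⟨⟨⟨h1, h6.le⟩, h3, h5⟩, h6⟩, h6⟩

/-- the end points of an edge -/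
theorem ends (e : Edg) : (src e).1 = e.1 ∧ (src e).2 = e.2.1 ∧
    (((tgt e).1 = e.1 + 1 ∧ (tgt e).2 = e.2.1) ∨ ((tgt e).1 = e.1 ∧ (tgt e).2 = e.2.1 + 1)) := by
  obtain ⟨x, y, b⟩ := e
  cases b
  · exact ⟨rfl, rfl, Or.inr ⟨rfl, rfl⟩⟩
  · exact ⟨rfl, rfl, Or.inl ⟨rfl, rfl⟩⟩

theorem part1 {n : ℤ} {E F η : Finset Edg} {T S : Set Vtx} (hn : 1 ≤ n) (hL : LS n 0 E T)
    (hS : RtV n (N n) S) (hF : Rt n (N n) F) (hη : η ⊆ E ∪ SE n 0 (N n))
    (h : Cn S T (F ∪ η)) : Cn S (col n (n + 1)) (F ∪ (η ∩ SE n (n + 1) (N n))) := by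
  obtain ⟨s, hs, t, ht, hr⟩ := h
  have hs1 := hS s hs
  have ht1 := hL.tgt t ht
  have hNn : N n = 2 * n + 2 := rfl
  obtain ⟨v', w', h1, h2, h3, h4⟩ := first_hit (T := fun v : Vtx => v.1 ≤ n + 1) hr
    (by show ¬ s.1 ≤ n + 1; omega) (by show t.1 ≤ n + 1; omega)
  have hin : ∀ e ∈ F ∪ η, n + 1 ≤ e.1 → e ∈ F ∪ (η ∩ SE n (n + 1) (N n)) := by
    intro e he h5
    rcases Finset.mem_union.1 he with he | he
    · exact Finset.mem_union_left _ he
    · rcases Finset.mem_union.1 (hη he) with h6 | h6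
      · have := (hL.lt e h6).1
        omega
      · have h7 := mem_SE.1 h6
        exact Finset.mem_union_right _ (Finset.mem_inter.2 ⟨he, mem_SE.2 ⟨h5, h7.2⟩⟩)
  have hst : ∀ e ∈ F ∪ η, InS n e := by
    intro e he
    rcases Finset.mem_union.1 he with he | he
    · exact (hF e he).2
    · rcases Finset.mem_union.1 (hη he) with h6 | h6
      · exact (hL.lt e h6).2
      · exact (mem_SE.1 h6).2.2
  obtain ⟨e, he, hcase⟩ := h3
  have he' : e ∈ F ∪ η := Finset.mem_coe.1 he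
  have h2' : ¬ v'.1 ≤ n + 1 := h2
  have h4' : w'.1 ≤ n + 1 := h4
  obtain ⟨a1, a2, a3⟩ := ends e
  have a4 := hst e he'
  unfold InS at a4
  have hw : w'.1 = n + 1 ∧ 0 ≤ w'.2 ∧ w'.2 ≤ n ∧ n + 1 ≤ e.1 := by
    rcases hcase with ⟨b1, b2⟩ | ⟨b1, b2⟩
    · rw [b1] at a1 a2
      rw [b2] at a3 a4
      omega
    · rw [b1] at a1 a2
      rw [b2] at a3 a4
      omega
  refine ⟨s, hs, w', ⟨hw.1, hw.2.1, hw.2.2.1⟩, ?_⟩
  refine (h1.mono ?_).trans (Adj.reach ⟨e, Finset.mem_coe.2 (hin e he' hw.2.2.2), hcase⟩)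
  rintro f ⟨hf1, hf2, _⟩
  have hf2' : ¬ (src f).1 ≤ n + 1 := hf2
  have := (ends f).1
  exact Finset.mem_coe.2 (hin f (Finset.mem_coe.1 hf1) (by omega))

theorem part2 {n : ℤ} {E F η : Finset Edg} {T S : Set Vtx} (hn : 1 ≤ n) (hL : LS n 0 E T)
    (hS : RtV n (N n) S) (hF : Rt n (N n) F) (hη : η ⊆ E ∪ SE n 0 (N n))
    (h : Cn S T (F ∪ η)) : Cn (col n 0) T (η ∩ E) := by
  obtain ⟨s, hs, t, ht, hr⟩ := h
  have hs1 := hS s hs
  have ht1 := hL.tgt t ht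
  have hNn : N n = 2 * n + 2 := rfl
  obtain ⟨v', w', h1, h2, h3, h4⟩ := first_hit (T := fun v : Vtx => 0 ≤ v.1) hr.symm
    (by show ¬ 0 ≤ t.1; omega) (by show 0 ≤ s.1; omega)
  have hin : ∀ e ∈ F ∪ η, e.1 < 0 → e ∈ η ∩ E := by
    intro e he h5
    rcases Finset.mem_union.1 he with he | he
    · have := (hF e he).1
      omega
    · rcases Finset.mem_union.1 (hη he) with h6 | h6
      · exact Finset.mem_inter.2 ⟨he, h6⟩
      · have h7 := (mem_SE.1 h6).1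
        omega
  have hst : ∀ e ∈ F ∪ η, InS n e := by
    intro e he
    rcases Finset.mem_union.1 he with he | he
    · exact (hF e he).2
    · rcases Finset.mem_union.1 (hη he) with h6 | h6
      · exact (hL.lt e h6).2
      · exact (mem_SE.1 h6).2.2
  obtain ⟨e, he, hcase⟩ := h3
  have he' : e ∈ F ∪ η := Finset.mem_coe.1 he
  have h2' : ¬ 0 ≤ v'.1 := h2
  have h4' : 0 ≤ w'.1 := h4
  obtain ⟨a1, a2, a3⟩ := ends e
  have a4 := hst e he'
  unfold InS at a4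
  have hw : w'.1 = 0 ∧ 0 ≤ w'.2 ∧ w'.2 ≤ n ∧ e.1 < 0 := by
    rcases hcase with ⟨b1, b2⟩ | ⟨b1, b2⟩
    · rw [b1] at a1 a2
      rw [b2] at a3 a4
      omega
    · rw [b1] at a1 a2
      rw [b2] at a3 a4
      omega
  refine ⟨w', ⟨hw.1, hw.2.1, hw.2.2.1⟩, t, ht, ?_⟩
  refine Reach.symm ((h1.mono ?_).trans
    (Adj.reach ⟨e, Finset.mem_coe.2 (hin e he' hw.2.2.2), hcase⟩))
  rintro f ⟨hf1, hf2, _⟩
  have hf2' : ¬ 0 ≤ (src f).1 := hf2
  have := (ends f).1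
  exact Finset.mem_coe.2 (hin f (Finset.mem_coe.1 hf1) (by omega))

/-- **Upper bound** -/
theorem main : S_P2 := by
  intro n E T S F hn hL hS hF
  have hNn : N n = 2 * n + 2 := rfl
  have h1 : U (E ∪ SE n 0 (N n)) T S F ≤ Pr hf (E ∪ SE n 0 (N n)) (fun η =>
      Cn S (col n (n + 1)) (F ∪ (η ∩ SE n (n + 1) (N n))) ∧ Cn (col n 0) T (η ∩ E)) := by
    unfold U
    exact Pr_mono okh fun η hη h => ⟨part1 hn hL hS hF hη h, part2 hn hL hS hF hη h⟩
  have hsub1 : SE n (n + 1) (N n) ⊆ E ∪ SE n 0 (N n) := by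
    intro e he
    have h2 := mem_SE.1 he
    exact Finset.mem_union_right _ (mem_SE.2 ⟨by omega, h2.2⟩)
  have hsub2 : E ⊆ E ∪ SE n 0 (N n) := Finset.subset_union_left
  have hdis : Disjoint (SE n (n + 1) (N n)) E := by
    rw [Finset.disjoint_left]
    intro e he he'
    have h2 := (mem_SE.1 he).1
    have h3 := (hL.lt e he').1
    omega
  have h2 : Pr hf (E ∪ SE n 0 (N n)) (fun η =>
      Cn S (col n (n + 1)) (F ∪ (η ∩ SE n (n + 1) (N n))) ∧ Cn (col n 0) T (η ∩ E)) =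
      Pr hf (E ∪ SE n 0 (N n)) (fun η =>
        Cn S (col n (n + 1)) (F ∪ (η ∩ SE n (n + 1) (N n)))) *
      Pr hf (E ∪ SE n 0 (N n)) (fun η => Cn (col n 0) T (η ∩ E)) := by
    refine Pr_indep (A := fun η => Cn S (col n (n + 1)) (F ∪ (η ∩ SE n (n + 1) (N n))))
      (B := fun η => Cn (col n 0) T (η ∩ E)) hsub1 hsub2 hdis ?_ ?_
    · intro η _
      simp only [Finset.inter_assoc, Finset.inter_self]
    · intro η _
      simp only [Finset.inter_assoc, Finset.inter_self]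
  have h3 : Pr hf (E ∪ SE n 0 (N n)) (fun η =>
      Cn S (col n (n + 1)) (F ∪ (η ∩ SE n (n + 1) (N n)))) = aa n S F := by
    rw [Pr_local hsub1 (A := fun η => Cn S (col n (n + 1)) (F ∪ (η ∩ SE n (n + 1) (N n)))) ?_]
    · unfold aa U
      refine Pr_congr fun η hη => ?_
      rw [Finset.inter_eq_left.2 hη]
    · intro η _
      simp only [Finset.inter_assoc, Finset.inter_self]
  have h4 : Pr hf (E ∪ SE n 0 (N n)) (fun η => Cn (col n 0) T (η ∩ E)) = bb n E T := by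
    rw [Pr_local hsub2 (A := fun η => Cn (col n 0) T (η ∩ E)) ?_]
    · unfold bb
      refine Pr_congr fun η hη => ?_
      rw [Finset.inter_eq_left.2 hη]
    · intro η _
      simp only [Finset.inter_assoc, Finset.inter_self]
  rw [h2, h3, h4] at h1
  exact h1

end Pool.Agent.Y658.LR
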